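import Pool.Agent.H37.CNZ.Stmts

set_option autoImplicit false

namespace Pool.CND

open Finset

namespace CCO18

variable {k L : Type} [Field k] [Field L] [Algebra k L]

/-- a place twisted by an automorphism -/
def tw (P : Place k L) (σ : L ≃ₐ[k] L) : Place k L where
  ord := fun x => P.ord (σ x)
  ord_mul := by
    intro x y hx hy
    rw [map_mul]
    exact P.ord_mul _ _ (fun h => hx (by simpa using h)) (fun h => hy (by simpa using h))
  ord_add := by
    intro x y hx hy hxy
    rw [map_add]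
    refine P.ord_add _ _ (fun h => hx (by simpa using h)) (fun h => hy (by simpa using h)) ?_
    intro h
    rw [← map_add] at h
    exact hxy ((map_eq_zero_iff σ σ.injective).1 h)
  ord_surj := by
    obtain ⟨x, hx, h1⟩ := P.ord_surj
    refine ⟨σ.symm x, fun h => hx (by simpa using h), ?_⟩
    rw [AlgEquiv.apply_symm_apply]
    exact h1
  ord_const := by
    intro c hc
    rw [AlgEquiv.commutes]
    exact P.ord_const c hc
  residue := by
    intro x hx h0
    obtain ⟨c, hc⟩ := P.residue (σ x) (fun h => hx (by simpa using h)) h0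
    refine ⟨c, ?_⟩
    rcases hc with hc | hc
    · left
      apply σ.injective
      rw [hc, AlgEquiv.commutes]
    · right
      rw [map_sub, AlgEquiv.commutes]
      exact hc

/-- the valuation ring of a place -/
def vr (P : Place k L) : Subring L where
  carrier := {x | x = 0 ∨ 0 ≤ P.ord x}
  mul_mem' := by
    intro x y hx hy
    by_cases h0 : x = 0
    · left; rw [h0, zero_mul]
    by_cases h1 : y = 0
    · left; rw [h1, mul_zero]
    right
    rw [P.ord_mul x y h0 h1]
    exact add_nonneg (hx.resolve_left h0) (hy.resolve_left h1)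
  one_mem' := by
    right
    have h := P.ord_const 1 one_ne_zero
    rw [map_one] at h
    exact h.ge
  add_mem' := by
    intro x y hx hy
    by_cases h0 : x = 0
    · rw [h0, zero_add]; exact hy
    by_cases h1 : y = 0
    · rw [h1, add_zero]; exact hx
    by_cases h2 : x + y = 0
    · left; exact h2
    right
    exact le_trans (le_min (hx.resolve_left h0) (hy.resolve_left h1)) (P.ord_add x y h0 h1 h2)
  zero_mem' := Or.inl rfl
  neg_mem' := by
    intro x hx
    by_cases h0 : x = 0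
    · left; rw [h0, neg_zero]
    right
    have h1 : (-1 : L) ≠ 0 := neg_ne_zero.2 one_ne_zero
    have h := P.ord_const (-1) (neg_ne_zero.2 one_ne_zero)
    rw [map_neg, map_one] at h
    rw [← neg_one_mul, P.ord_mul _ x h1 h0, h, zero_add]
    exact hx.resolve_left h0

theorem mem_vr (P : Place k L) (x : L) : x ∈ vr P ↔ (x = 0 ∨ 0 ≤ P.ord x) := Iff.rfl

theorem reg_tw {Q : Type} [Group Q] (ρ : Q →* (L ≃ₐ[k] L)) (t θ : L) (hcov : IsCover ρ t)
    (hθ : Reg k t θ) (P : Place k L) (hP : 0 ≤ P.ord t) (u : Q) : ρ u θ ∈ vr P := by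
  have ht : ρ u t = t := (hcov.fixed t).2 (IntermediateField.mem_adjoin_simple_self k t) u
  have h1 : 0 ≤ (tw P (ρ u)).ord t := by
    change 0 ≤ P.ord (ρ u t)
    rw [ht]
    exact hP
  rcases hθ (tw P (ρ u)) h1 with h | h
  · left
    rw [h, map_zero]
  · right
    exact h

theorem vr_tw {Q : Type} [Group Q] (ρ : Q →* (L ≃ₐ[k] L)) (w : Q → L) (θ : L)
    [Fintype Q] (htr : ∑ u, ρ u θ = 1) (hw : ∀ u v, w (u * v) = w u + ρ u (w v)) (g : Q) :
    ρ g (-∑ u, w u * ρ u θ) - (-∑ u, w u * ρ u θ) = w g := by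
  have h1 : ρ g (∑ u, w u * ρ u θ) = ∑ u, (w (g * u) - w g) * ρ (g * u) θ := by
    rw [map_sum]
    refine Finset.sum_congr rfl fun u _ => ?_
    rw [map_mul, hw, add_sub_cancel_left, map_mul]
    rfl
  have h2 : ∑ u, (w (g * u) - w g) * ρ (g * u) θ = ∑ u, (w u - w g) * ρ u θ :=
    Equiv.sum_comp (Equiv.mulLeft g) (fun u => (w u - w g) * ρ u θ)
  rw [map_neg, h1, h2]
  simp only [sub_mul, Finset.sum_sub_distrib]
  rw [← Finset.mul_sum, htr]
  ring

end CCO18

open CCO18 in
theorem cco_thm (h1 : S_TRS) : S_CCO := by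
  classical
  intro p k L G _ _ _ _ _ _ z _ ρ t hp hchar hz hcomm hcov
  obtain ⟨θ, hθ, htr⟩ := h1 k L (G ⧸ Subgroup.zpowers z) ρ t hcov
  have hpf : Fact p.Prime := ⟨hp⟩
  have hcL : CharP L p := charP_of_injective_algebraMap (algebraMap k L).injective p
  have hft : Fintype (G ⧸ Subgroup.zpowers z) := Fintype.ofFinite _
  rw [finsum_eq_sum_of_fintype] at htr
  have hex : ∀ (g : G) (u : G ⧸ Subgroup.zpowers z), ∃ m : ℤ,
      g * u.out = ((g : G ⧸ Subgroup.zpowers z) * u).out * z ^ m := by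
    intro g u
    have h2 : (((g : G ⧸ Subgroup.zpowers z) * u).out)⁻¹ * (g * u.out) ∈ Subgroup.zpowers z := by
      rw [← QuotientGroup.eq]
      rw [QuotientGroup.mk_mul, QuotientGroup.out_eq', QuotientGroup.out_eq']
    obtain ⟨m, hm⟩ := Subgroup.mem_zpowers_iff.1 h2
    exact ⟨m, by rw [hm]; group⟩
  choose n hn using hex
  have hint : ∀ m m' : ℤ, z ^ m = z ^ m' → (m : L) = (m' : L) := by
    intro m m' h
    rw [zpow_eq_zpow_iff_modEq, hz] at h
    exact (CharP.intCast_eq_intCast L p).2 h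
  have hzc : ∀ (m : ℤ) (g : G), z ^ m * g = g * z ^ m := fun m g =>
    (Commute.zpow_left (show Commute z g from (hcomm g).symm) m)
  set b : G → L := fun g => ∑ u, (n g u : L) * ρ ((g : G ⧸ Subgroup.zpowers z) * u) θ with hb
  have hcoc : ∀ g h : G, b (g * h) = b g + ρ (g : G ⧸ Subgroup.zpowers z) (b h) := by
    intro g h
    have h3 : ∀ u, (n (g * h) u : L) = (n g ((h : G ⧸ Subgroup.zpowers z) * u) : L) + (n h u : L) := by
      intro u
      rw [← Int.cast_add]
      apply hint
      have e1 := hn (g * h) u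
      have e2 := hn h u
      have e3 := hn g ((h : G ⧸ Subgroup.zpowers z) * u)
      rw [mul_assoc, e2, ← mul_assoc, e3, mul_assoc, ← mul_assoc, QuotientGroup.mk_mul,
        mul_assoc ((g : G ⧸ Subgroup.zpowers z))] at e1
      rw [mul_assoc] at e1
      rw [zpow_add]
      exact (mul_left_cancel e1).symm
    have h4 : b (g * h) = ∑ u, ((n g ((h : G ⧸ Subgroup.zpowers z) * u) : L) *
        ρ ((g : G ⧸ Subgroup.zpowers z) * ((h : G ⧸ Subgroup.zpowers z) * u)) θ +
        (n h u : L) * ρ ((g : G ⧸ Subgroup.zpowers z) * ((h : G ⧸ Subgroup.zpowers z) * u)) θ) := by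
      rw [hb]
      refine Finset.sum_congr rfl fun u _ => ?_
      rw [h3 u, add_mul, QuotientGroup.mk_mul, mul_assoc]
    rw [h4, Finset.sum_add_distrib]
    have h5 : ∑ u, ((n g ((h : G ⧸ Subgroup.zpowers z) * u) : L) *
        ρ ((g : G ⧸ Subgroup.zpowers z) * ((h : G ⧸ Subgroup.zpowers z) * u)) θ) = b g :=
      Equiv.sum_comp (Equiv.mulLeft ((h : G ⧸ Subgroup.zpowers z)))
        (fun u => (n g u : L) * ρ ((g : G ⧸ Subgroup.zpowers z) * u) θ)
    rw [h5, hb]
    congr 1
    rw [map_sum]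
    refine Finset.sum_congr rfl fun u _ => ?_
    rw [map_mul ρ, map_mul (ρ (g : G ⧸ Subgroup.zpowers z)) (n h u : L), map_intCast]
    rfl
  have hzq : (z : G ⧸ Subgroup.zpowers z) = 1 :=
    (QuotientGroup.eq_one_iff z).2 (Subgroup.mem_zpowers z)
  have hbz : b z = 1 := by
    rw [hb, ← htr]
    refine Finset.sum_congr rfl fun u _ => ?_
    have e1 := hn z u
    rw [hzq, one_mul] at e1
    have e2 : z ^ (1 : ℤ) = z ^ (n z u) := by
      have e3 : u.out * z ^ (1 : ℤ) = u.out * z ^ (n z u) := by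
        rw [zpow_one, hcomm]
        exact e1
      exact mul_left_cancel e3
    have e4 := hint _ _ e2
    rw [← e4, hzq, one_mul, Int.cast_one, one_mul]
  have hb1 : b 1 = 0 := by
    have e := hcoc 1 1
    rw [mul_one, QuotientGroup.mk_one, map_one, AlgEquiv.one_apply] at e
    exact left_eq_add.1 e
  have hbn : ∀ m : ℕ, b (z ^ m) = (m : L) := by
    intro m
    induction m with
    | zero => rw [pow_zero, hb1, Nat.cast_zero]
    | succ m ih =>
      rw [pow_succ', hcoc, hzq, map_one, AlgEquiv.one_apply, ih, hbz, Nat.cast_succ, add_comm]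
  set w : G → L := fun g => b g ^ p - b g with hw
  have hwc : ∀ g h : G, w (g * h) = w g + ρ (g : G ⧸ Subgroup.zpowers z) (w h) := by
    intro g h
    rw [hw]
    change b (g * h) ^ p - b (g * h) = (b g ^ p - b g) + ρ (g : G ⧸ Subgroup.zpowers z) (b h ^ p - b h)
    rw [hcoc, add_pow_char, map_sub, map_pow]
    ring
  have hwz : ∀ m : ℕ, w (z ^ m) = 0 := by
    intro m
    change b (z ^ m) ^ p - b (z ^ m) = 0
    rw [hbn, sub_eq_zero]
    have := ZMod.pow_card ((m : ZMod p))
    have h6 := congrArg (ZMod.castHom (dvd_refl p) L) this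
    rw [map_pow, map_natCast] at h6
    exact h6
  have hwq : ∀ g h : G, (g : G ⧸ Subgroup.zpowers z) = (h : G ⧸ Subgroup.zpowers z) → w g = w h := by
    intro g h hgh
    rw [QuotientGroup.eq] at hgh
    obtain ⟨m, hm⟩ := Subgroup.mem_zpowers_iff.1 hgh
    have hfin : IsOfFinOrder z := isOfFinOrder_of_finite z
    obtain ⟨m', hm'⟩ : ∃ m' : ℕ, z ^ m' = z ^ m := by
      have h7 : z ^ m ∈ Submonoid.powers z := by
        rw [hfin.mem_powers_iff_mem_zpowers]
        exact Subgroup.mem_zpowers_iff.2 ⟨m, rfl⟩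
      exact (Submonoid.mem_powers_iff _ _).1 h7
    have h8 : h = g * z ^ m' := by rw [hm', hm]; group
    rw [h8, hwc, hwz, map_zero, add_zero]
  set v : G ⧸ Subgroup.zpowers z → L := fun u => w u.out with hv
  have hvw : ∀ g : G, v (g : G ⧸ Subgroup.zpowers z) = w g := fun g =>
    hwq _ _ (QuotientGroup.out_eq' _)
  have hvc : ∀ u u' : G ⧸ Subgroup.zpowers z, v (u * u') = v u + ρ u (v u') := by
    intro u u'
    obtain ⟨g, rfl⟩ := QuotientGroup.mk_surjective u
    obtain ⟨h, rfl⟩ := QuotientGroup.mk_surjective u'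
    rw [← QuotientGroup.mk_mul, hvw, hvw, hvw, hwc]
  refine ⟨b, -∑ u, v u * ρ u θ, ?_, hcoc, hbz, ?_⟩
  · intro P hP
    rw [← mem_vr]
    have hθP : ∀ u, ρ u θ ∈ vr P := reg_tw ρ t θ hcov hθ P hP
    have hbP : ∀ g, b g ∈ vr P := fun g =>
      Subring.sum_mem _ fun u _ => Subring.mul_mem _ (intCast_mem (vr P) _) (hθP _)
    have hvP : ∀ u, v u ∈ vr P := fun u =>
      Subring.sub_mem _ (Subring.pow_mem _ (hbP _) p) (hbP _)
    exact Subring.neg_mem _ (Subring.sum_mem _ fun u _ => Subring.mul_mem _ (hvP u) (hθP u))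
  · intro g
    rw [vr_tw ρ v θ htr hvc, hvw]

end Pool.CND
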